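import Mathlib
import Pool.Agent.H11.PT.Main
import Pool.Graph.R_pool_sql_team_seeded_63374d34.Results.MP_1f4fc7_nt.NearTheWholeLine

/-!
# `L₂(s, X)` near `s = 2` over all number fields of bounded degree at once, for almost all members of a linear system

Let `X_c : ∑ c_i f_i = 0` run through the members of height at most `H` of a linear system of hypersurfaces of
degree `d` in `ℙ^{2m+1}` over `ℚ` (surfaces for `m = 1`) with `n` parameters, which has a smooth member and separates
points, and let `e` be the number of the components of dimension `m` of its base locus. The question is about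
the order of the pole at `s = m + 1` of the L-function over EVERY number field `K`, and for the general member Tate's
conjecture predicts the order `1 + e` over all `K` (the classes of the hyperplane section and of the base locus), and no
pole for the twists by non-trivial characters.

The theorem is a finite form of this prediction for all `K` simultaneously. For all `η > 0`, `κ ≥ 0` and `D`, all members
of height at most `H` except for at most `C H^{n - 1/2 + η + κ (D² + D + 4) / 2}` of them satisfy, for ALL number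
fields `K` of degree at most `D` with `|disc K| ≤ H^κ` and ALL Dirichlet characters `χ` of modulus at most `H^κ`,
`| log |L(X_c / K ⊗ χ, s)| - (1 + e) log |L(K, χ, s - m)| | ≤ D (b + |1 + e|) log log log H + C`
in the region `s = m + 1 + ε + iτ`, `1 / log H ≤ ε ≤ 1`, `|τ| ≤ H^{η/4}`: the quotient
`L(X_c / K ⊗ χ, s) / L(K, χ, s - m) ^ (1 + e)` lies between two fixed powers of `log log H`. Here `L(K, χ, s)` is the Hecke
L-function of `χ ∘ N` (the Dedekind zeta function of `K` for `χ = 1`). The exceptional set does not depend on `K`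
and `χ`. So, seen from the distance `1 / log H`, no general member acquires a further pole, or loses its
pole, over any of these fields. The case `κ = 0`, `D = 1` is the case `K = ℚ`, `χ = 1` of the L-functions over `ℚ`.

The library (`LinearSystems`, `NearTheWholeLine`) has the case `K = ℚ`, `χ = 1` in mean square, where the exceptional set is
a proportion `δ` of the box, the error a power of `1 / δ` and the height of the region bounded.

The second part is the complete linear system of all forms of degree `d` in `2m + 2` variables (`e = 0`).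

Proof. Blocks of primes `2^j < p ≤ 2^{j+1}`, `log log H ≪ j ≪ log H`, and in each block a high even moment (of order
`2k` with `2^{2jk} ≈ H`) of the sum of the centred normalised traces with the weights `r_K(p) χ(p)`, where `r_K(p)` is the
number of the primes of `K` of norm `p`. The box is majorised by a product of Fejér kernels which is
exactly equidistributed modulo all integers up to `6 H`, so that the reductions modulo the primes of the block
are independent up to this order, and the moment is that of a sum of independent bounded variables of mean zero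
(bounded by the Weil conjectures). The number of the functions `r_K χ` is bounded by a power of `H^κ`: by the theorem of
Minkowski `K` has a generator whose minimal polynomial has coefficients at most `C |disc K|^{D/2}`. The
primes of bad reduction are treated by the same moments, the region by a grid, the small primes by the theorem of
Mertens.

`IsTwistOver` and `IsHecke` are defined in `Pool.Agent.H11.PT.Defs`, `LFun` in `Pool.Agent.H11.TC.Defs`, `IsFrobenius`, `zc`,
`lform`, `Separates`, `box`, `red`, `IsSmooth` in `Pool.Graph.R_seed8.Y722`.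
-/

set_option autoImplicit false

open NumberField IsDedekindDomain Pool.Agent.Y722.HS Pool.Agent.Y722.LS Pool.Agent.H11.PT

namespace Pool.Agent.Results.MP_1f4fc7_nt.AllNumberFieldsAtOnce

open Pool.Agent.Results.MP_1f4fc7_nt.NearTheWholeLine (monomials aeval_monomials lval_monomials
  exists_pow smooth_fermat)

/-- For all members `∑ c i f i = 0`, `c` in the box of the vectors with integer coordinates of absolute value at
most `H`, outside of an exceptional set with at most `C H ^ (n - 1 / 2 + η + κ (D (D + 1) + 4) / 2)` elements, the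
L-functions of the middle cohomology over all number fields `K` of degree at most `D` with discriminant at most
`H ^ κ`, twisted by all Dirichlet characters `χ` of modulus at most `H ^ κ`, are of the size of `L(K, χ, s - m) ^ (1 + e)`
up to a power of `log log H`, in the region `1 / log H ≤ Re s - m - 1 ≤ 1`, `|Im s| ≤ H ^ (η / 4)`. Here `α c` are the
Frobenius eigenvalues of the member `c` over `ℚ`; the constant `C` depends only on the linear system, `b`, `D`, `η`
and `κ`. -/
def AllFields (m : ℕ) {ι : Type} [Fintype ι] [DecidableEq ι]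
    (f : ι → MvPolynomial (Fin (2 * m + 2)) ℤ) (b D : ℕ) (e : ℝ) : Prop :=
  ∀ η κ : ℝ, 0 < η → η ≤ 1 → 0 ≤ κ → κ ≤ 1 → ∃ C : ℝ, 0 < C ∧ ∀ H : ℕ, 16 ≤ H →
    ∀ α : (ι → ℤ) → ℕ → Fin b → ℂ, (∀ c ∈ box ι H, IsFrobenius f b c (α c)) →
    ∃ E ⊆ box ι H,
      (E.card : ℝ) ≤ C * (H : ℝ) ^ ((Fintype.card ι : ℝ) - 1 / 2 + η + ((D : ℝ) * (D + 1) + 4) / 2 * κ) ∧
      ∀ c ∈ box ι H \ E, ∀ (K : Type) [Field K] [NumberField K],
        Module.finrank ℚ K ≤ D → (|discr K| : ℝ) ≤ (H : ℝ) ^ κ →
        ∀ q : ℕ, 1 ≤ q → (q : ℝ) ≤ (H : ℝ) ^ κ → ∀ χ : DirichletCharacter ℂ q,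
        ∀ (β : HeightOneSpectrum (𝓞 K) → Fin b → ℂ) (γ : HeightOneSpectrum (𝓞 K) → ℂ),
        IsTwistOver f c (α c) χ β → IsHecke χ γ → ∀ ε τ : ℝ,
          1 / Real.log H ≤ ε → ε ≤ 1 → |τ| ≤ (H : ℝ) ^ (η / 4) →
          Pool.Agent.H11.TC.LFun β (m + 1 + ε + τ * Complex.I) ≠ 0 ∧
          Pool.Agent.H11.TC.LFun (fun v (_ : Fin 1) => γ v) (1 + ε + τ * Complex.I) ≠ 0 ∧
          |Real.log ‖Pool.Agent.H11.TC.LFun β (m + 1 + ε + τ * Complex.I)‖ -
            (1 + e) * Real.log ‖Pool.Agent.H11.TC.LFun (fun v (_ : Fin 1) => γ v) (1 + ε + τ * Complex.I)‖| ≤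
            D * (b + |1 + e|) * Real.log (Real.log (Real.log H)) + C

lemma saving {m d : ℕ} (hd : 1 ≤ d) {ι : Type} [Fintype ι] [DecidableEq ι]
    (f : ι → MvPolynomial (Fin (2 * m + 2)) ℤ) (hf : ∀ i, (f i).IsHomogeneous d)
    (c₀ : ι → ℤ) (hs : IsSmooth (lform (n := 2 * m + 1) f (fun i => (c₀ i : ℂ)))) (p₀ : ℕ)
    (hsep : ∀ p : ℕ, p.Prime → p₀ ≤ p → Separates (n := 2 * m + 1) f p) (e C₀ : ℝ)
    (hZ : ∀ p : ℕ, p.Prime → p₀ ≤ p → |zc f p - e * (p : ℝ) ^ m| ≤ C₀ * (p : ℝ) ^ ((m : ℝ) - 1 / 2))
    (b D : ℕ) : AllFields m f b D e := by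
  intro η κ hη hη1 hκ hκ1
  obtain ⟨C, hC, h⟩ := Pool.Agent.H11.PT.main hd f hf c₀ hs p₀ hsep e C₀ hZ b D η κ hη hη1 hκ hκ1
  refine ⟨C, hC, fun H hH α hα => ?_⟩
  obtain ⟨E, hE, hE1, hE2⟩ := h H hH fun c hc => ⟨α c, hα c hc⟩
  refine ⟨E, hE, hE1, fun c hc K _ _ hD hdisc q hq1 hq2 χ β γ hβ hγ ε τ hε0 hε1 hτ => ?_⟩
  exact hE2 c hc (α c) (hα c (Finset.mem_sdiff.mp hc).1) K hD hdisc q hq1 hq2 χ β γ hβ hγ ε τ hε0 hε1 hτ

lemma complete {m d : ℕ} (hd : 1 ≤ d) (b D : ℕ) : AllFields m (monomials m d) b D 0 := by
  classical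
  obtain ⟨c₀, hs⟩ := smooth_fermat (m := m) hd
  have hne : ∀ (p : ℕ) [Fact p.Prime] (x : Fin (2 * m + 2) → ZMod p), x ≠ 0 →
      ∃ ν : Mon (2 * m + 1) d, MvPolynomial.aeval x (monomials m d ν) ≠ 0 := by
    intro p _ x hx
    obtain ⟨k, hk⟩ : ∃ i, x i ≠ 0 := Function.ne_iff.mp hx
    obtain ⟨ν, hν⟩ := exists_pow (m := m) (d := d) k
    refine ⟨ν, ?_⟩
    rw [aeval_monomials]
    unfold mev
    rw [Finset.prod_eq_single k]
    · rw [hν k, if_pos rfl]
      exact pow_ne_zero _ hk
    · intro i _ hi
      rw [hν i, if_neg hi, pow_zero]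
    · intro h
      exact absurd (Finset.mem_univ _) h
  refine saving hd (monomials m d) (fun ν => ?_) c₀ hs 0 ?_ 0 0 ?_ b D
  · unfold monomials
    have h1 := MvPolynomial.IsHomogeneous.prod Finset.univ
      (fun i : Fin (2 * m + 2) => (MvPolynomial.X i : MvPolynomial (Fin (2 * m + 2)) ℤ) ^ (ν.1 i : ℕ))
      (fun i => (ν.1 i : ℕ)) (fun i _ => by
        have := (MvPolynomial.isHomogeneous_X ℤ i).pow (ν.1 i : ℕ)
        rwa [one_mul] at this)
    rwa [ν.2] at h1
  · intro p hp _ x y hxy hx
    have := Fact.mk hp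
    obtain ⟨i, j, hij⟩ := hxy
    have hx0 : x ≠ 0 := by
      rintro rfl
      simp at hij
    obtain ⟨c, hc1, hc2⟩ := exists_val_pair hd x y hx0 i j hij 1
    refine ⟨c, ?_, ?_⟩
    · rw [eval_lform, lval_monomials, hc1]
      exact one_ne_zero
    · rw [eval_lform, lval_monomials, hc2]
  · intro p hp _
    have := Fact.mk hp
    have h1 : bcone (n := 2 * m + 1) (monomials m d) p = 0 := by
      unfold bcone
      rw [Nat.card_eq_zero]
      left
      refine ⟨fun x => ?_⟩
      obtain ⟨ν, hν⟩ := hne p x.1 x.2.1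
      exact hν (x.2.2 ν)
    unfold zc
    rw [h1]
    simp

/-- **All number fields at once.** (1) All linear systems with a smooth member which separate the points outside
of the base locus, where `e` is the number of the components of dimension `m` of the base locus (in the form of the
estimate of Lang and Weil). (2) All forms of degree `d` in `2 m + 2` variables. -/
theorem result :
    (∀ (m d : ℕ), 1 ≤ d → ∀ (ι : Type) [Fintype ι] [DecidableEq ι]
      (f : ι → MvPolynomial (Fin (2 * m + 2)) ℤ), (∀ i, (f i).IsHomogeneous d) →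
      ∀ c₀ : ι → ℤ, IsSmooth (lform (n := 2 * m + 1) f (fun i => (c₀ i : ℂ))) → ∀ p₀ : ℕ,
      (∀ p : ℕ, p.Prime → p₀ ≤ p → Separates (n := 2 * m + 1) f p) → ∀ e C₀ : ℝ,
      (∀ p : ℕ, p.Prime → p₀ ≤ p → |zc f p - e * (p : ℝ) ^ m| ≤ C₀ * (p : ℝ) ^ ((m : ℝ) - 1 / 2)) →
      ∀ b D : ℕ, AllFields m f b D e) ∧
    (∀ m d b D : ℕ, 1 ≤ d → AllFields m (monomials m d) b D 0) :=
  ⟨fun _ _ hd _ _ _ f hf c₀ hs p₀ hsep e C₀ hZ b D => saving hd f hf c₀ hs p₀ hsep e C₀ hZ b D,
    fun _ _ b D hd => complete hd b D⟩

end Pool.Agent.Results.MP_1f4fc7_nt.AllNumberFieldsAtOnce
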