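import Mathlib
import Pool.Graph.R_seed8.TH958.BV.Defs
import Pool.Agent.H11.RC.Main

/-!
# Almost all ray class character twists of `L(H^i(X), s)` have neither a pole nor a zero near the edge, uniformly

`X` is a smooth projective variety over a number field `K`, for example `i = 2` and `L(H^2(X), s) = L_2(s, X)` with the
edge `Re s = 2`. Let `ψ` run through the characters of finite order of the idele class group of `K`, that is the
characters of the narrow ray class groups. The function `L_2(s, X_F)` of `X` over an abelian extension `F / K` is the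
product of the twists `L(H^2(X) ⊗ ψ, s)` by the characters `ψ` of `Gal(F / K)`, and Tate's conjecture over all these
fields `F` says that all the twists but finitely many have neither a pole nor a zero at `s = 2`, since the
Néron-Severi group is finitely generated. What was known for all varieties (Bessel inequalities,
see the other results on this problem) concerns the limit `s → i/2 + 1` for a fixed finite set of characters and says
nothing which is uniform in the conductor.

Here all ray class characters `ψ` of conductor of norm at most `Q` are treated at once. For every `η` there is a set `E` of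
at most `C Q^η` characters such that for all the characters `ψ` of conductor at most `Q` which are not equivalent to a
member of `E` (equivalent means equal at almost all primes, that is, with the same primitive character)
`C⁻¹ (log log Q)^(-N) ≤ |L(H^i(X) ⊗ ψ, s)| ≤ C (log log Q)^N`
in the whole rectangle `Q^(-η/48) ≤ Re s - (i/2 + 1) ≤ 1`, `|Im s| ≤ Q^(η/48)`, down to the distance of a power of the
conductor from the edge. For `K = ℚ` there are about `Q²` characters `ψ`, so nearly all of them
show no trace of a pole or a zero; the bounds have the quality of those of Littlewood for `L(1, χ)` under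
the Riemann hypothesis. `C` depends on `K`, `i`, `N` and `η` only, neither on `X` nor on `Q`, as long as `X` has at most
`log Q` bad primes. No continuation of an L-function is assumed.

Proof. The sums over the dyadic blocks of the primes between a power of `log Q` and `exp(Q^(η/24 d))` are bounded by
high moments, of an order depending on the block, for all characters at once by a large sieve inequality for ray class
characters, at the points of a grid in the rectangle. The large sieve inequality
(`Pool.Agent.H11.RC.large_sieve`) is proved by duality: a power of an ideal of a ray class is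
generated by an element of bounded sign type in a box, and the sums of the characters over the box
are estimated on a torus.

The definitions of `IsRayClassCharacter` and `IsTwist` are in `Pool.Agent.H11.RC.Defs`, that of `LFun` is in
`Pool.Agent.H11.TC.Defs` and `IsFrobenius` is in `Pool.Graph.R_seed8.TH958.BV.Defs`.
-/

set_option autoImplicit false

namespace Pool.Agent.Results.MP_1f4fc7_nt.AlmostAllRayClassCharacters

open NumberField IsDedekindDomain Pool.Agent.H11.RC Pool.Agent.TH958.BV

/-- **Almost all ray class characters.** -/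
theorem result (K : Type) [Field K] [NumberField K] (i N : ℕ) (η : ℝ) (hη : 0 < η) (hη1 : η ≤ 1) :
    ∃ C : ℝ, 0 < C ∧ ∀ (n d : ℕ) (X : Set (MvPolynomial (Fin n) (𝓞 K))) (Q : ℕ), 16 ≤ Q →
      ∀ S : Finset (HeightOneSpectrum (𝓞 K)), (S.card : ℝ) ≤ Real.log Q →
      ∀ α : HeightOneSpectrum (𝓞 K) → Fin N → ℂ, (∀ v ∉ S, IsFrobenius X d i v (α v)) →
      ∃ E : Finset (Ideal (𝓞 K) →*₀ ℂ), (E.card : ℝ) ≤ C * (Q : ℝ) ^ η ∧
        ∀ (𝔣 : Ideal (𝓞 K)) (ψ : Ideal (𝓞 K) →*₀ ℂ), IsRayClassCharacter 𝔣 ψ → Ideal.absNorm 𝔣 ≤ Q →
          (∀ ψ' ∈ E, {v : HeightOneSpectrum (𝓞 K) | ψ v.asIdeal ≠ ψ' v.asIdeal}.Infinite) →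
          ∀ β : HeightOneSpectrum (𝓞 K) → Fin N → ℂ, IsTwist i S α β 𝔣 ψ →
          ∀ ε τ : ℝ, (Q : ℝ) ^ (-(η / 48)) ≤ ε → ε ≤ 1 → |τ| ≤ (Q : ℝ) ^ (η / 48) →
            C⁻¹ * (Real.log (Real.log Q) ^ N)⁻¹ ≤
              ‖Pool.Agent.H11.TC.LFun β ((i : ℂ) / 2 + 1 + ε + τ * Complex.I)‖ ∧
            ‖Pool.Agent.H11.TC.LFun β ((i : ℂ) / 2 + 1 + ε + τ * Complex.I)‖ ≤
              C * Real.log (Real.log Q) ^ N := by
  obtain ⟨C, hC, h⟩ := main K i N η hη hη1
  have hCe : C ≤ Real.exp C := by
    have := Real.add_one_le_exp C
    linarith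
  refine ⟨Real.exp C, Real.exp_pos _, fun n d X Q hQ S hS α hα => ?_⟩
  obtain ⟨E, hE1, hE2⟩ := h Q hQ S hS α (by
    intro v hv j
    obtain ⟨β, h1, h2, _⟩ := hα v hv
    refine (h2 i (α v j) ?_).le
    rw [h1, Multiset.mem_map]
    exact ⟨j, Finset.mem_univ_val j, rfl⟩)
  have hQr : (1 : ℝ) ≤ Q := by exact_mod_cast (by omega : 1 ≤ Q)
  refine ⟨E, hE1.trans (by gcongr), fun 𝔣 ψ h1 h2 h3 β hβ ε τ e1 e2 e3 => ?_⟩
  obtain ⟨g1, g2⟩ := hE2 𝔣 ψ h1 h2 h3 β hβ ε τ e1 e2 e3
  set x := ‖Pool.Agent.H11.TC.LFun β ((i : ℂ) / 2 + 1 + ε + τ * Complex.I)‖ with hx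
  have hx0 : 0 < x := norm_pos_iff.mpr g1
  -- `log log Q` is positive
  have hll : 0 < Real.log (Real.log Q) := by
    apply Real.log_pos
    rw [Real.lt_log_iff_exp_lt (by linarith)]
    have h16 : (16 : ℝ) ≤ Q := by exact_mod_cast hQ
    have := Real.exp_one_lt_d9
    linarith
  have e4 : Real.exp (N * Real.log (Real.log (Real.log Q))) = Real.log (Real.log Q) ^ N := by
    rw [mul_comm, Real.exp_mul, Real.exp_log hll, Real.rpow_natCast]
  obtain ⟨g3, g4⟩ := abs_le.mp g2
  constructor
  · have h5 : Real.exp (-(N * Real.log (Real.log (Real.log Q)) + C)) ≤ x := by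
      rw [← Real.exp_log hx0]
      exact Real.exp_le_exp.mpr g3
    refine le_trans (le_of_eq ?_) h5
    rw [neg_add, Real.exp_add, Real.exp_neg, Real.exp_neg, e4, mul_comm]
  · have h5 : x ≤ Real.exp (N * Real.log (Real.log (Real.log Q)) + C) := by
      rw [← Real.exp_log hx0]
      exact Real.exp_le_exp.mpr g4
    refine h5.trans (le_of_eq ?_)
    rw [Real.exp_add, e4, mul_comm]

end Pool.Agent.Results.MP_1f4fc7_nt.AlmostAllRayClassCharacters
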