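import Pool.Agent.H28.MR.Main

/-!
# Varieties with a defect of Tate's conjecture repel each other

`X_j`, `j ∈ J`, are finitely many smooth projective varieties over a number field `K` and `T_j` the
transcendental part of `H²(X_j)` (or of `H^{2m_j}(X_j)`).  For `χ` an irreducible Artin representation of
`K`, for example the trivial one, the defect `δ_j` is the difference between `dim (NS(X_j) ⊗ χ)^G` and the
order of the pole of `L(H²(X_j) ⊗ χ, s)` at `s = 2`; Tate's conjecture says `δ_j = 0`.  The theorem bounds
the vector of the defects of DIFFERENT varieties by the matrix of the orders of the poles of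
`L(T_i ⊗ T_j, s)` at the edge of the half-plane of convergence, which are related to the algebraic cycles
on the products `X_i × X_j`.  If the transcendental parts are pairwise disjoint, in the sense that
`L(T_i ⊗ T_j, s)` has neither a pole nor a zero at the edge, then at most `p` of the varieties can
violate Tate's conjecture, for `p` the maximal order of the poles of the `L(T_j ⊗ T_j, s)`; for simple
poles this is at most one variety among arbitrarily many.  Nothing is assumed for the inequality of the
sizes.  The definitions are in `Pool.Agent.H28.MR.Defs`, `Pool.Agent.Y139.SM.Defs`,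
`Pool.Agent.W353.AT.TDefs`, `Pool.Agent.W353.AT.Defs`, `Pool.Agent.W353.TD.Defs`,
`Pool.Agent.W353.EH.Defs` and `Pool.Agent.W353.EF.Defs`.
-/

set_option autoImplicit false

namespace Pool.Agent.Results.MP_1f4fc7_nt.MutualRepulsion

open NumberField Pool.Agent.H28.MR

/-- **Mutual repulsion of the exceptional varieties.**  Let `X_j`, `j ∈ J`, be finitely many projective
varieties over a number field `K`, of dimension `d_j`, `0 ≤ m_j ≤ d_j`, `N_j` the `2m_j`-th Betti number,
`V_j` a part of `H^{2m_j}(X_j)(m_j)`, for instance `NS(X_j) ⊗ ℚ` for `m_j = 1`, and `T_j` the complement of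
`V_j(-m_j)`.
* (No continuation is assumed.)  For pairwise inequivalent irreducible Artin representations `χ_k` of `K`,
  all real `c_j`, every `η > 0` and all small `ε > 0`, `∑_k (∑_j c_j x_{jk}(ε))²` is at most
  `∑_{i,j} c_i c_j S_{ij}(ε) + η`, where
  `x_{jk}(ε) = log |L(H^{2m_j}(X_j) ⊗ χ_k, m_j + 1 + ε)| / log(1/ε) - dim (V_j ⊗ χ_k)^G` and
  `S_{ij}(ε) = log |L(T_i ⊗ T_j, m_i + m_j + 1 + ε)| / log(1/ε)`.
* If `L(T_i ⊗ T_j, s)` has a pole of order `p_{ij}` at the edge and `δ_j` is the defect of `X_j` for an
  irreducible Artin representation `χ`, then `(∑ c_j δ_j)² ≤ ∑ c_i c_j p_{ij}`; if `p_{ij} = 0` for all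
  `i ≠ j`, then `∑ δ_j² / p_{jj} ≤ 1`, and at most `q` of the `δ_j` are different from zero if all
  `p_{jj} ≤ q`; if `p_{ii} = p_{jj} = 1` and `δ_i, δ_j ≠ 0`, then `p_{ij} = δ_i δ_j = ±1`. -/
theorem result (K : Type) [Field K] [NumberField K] (J : Type) [Fintype J] (l d m N : J → ℕ)
    (X : ∀ j, Set (MvPolynomial (Fin (l j)) (𝓞 K))) (V : J → Type) [∀ j, AddCommGroup (V j)]
    [∀ j, Module ℚ (V j)] [∀ j, FiniteDimensional ℚ (V j)]
    (ρ : ∀ j, Representation ℚ Gal(AlgebraicClosure K/K) (V j)) (hm : ∀ j, m j ≤ d j)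
    (hV : ∀ j, Pool.Agent.W353.TD.IsPart (X j) (d j) (m j) (N j) (ρ j)) :
    Sizes X d m N ρ ∧ Repulsion X d m N ρ :=
  ⟨sizes hm hV, repulsion hm hV⟩

end Pool.Agent.Results.MP_1f4fc7_nt.MutualRepulsion
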