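import Pool.Agent.H28.RF.Res

/-!
# The residue identity of a fibration and the pole of `L₂` at `s = 2` for almost all of its fibres

`f : 𝒳 → 𝒴 = 𝔸^n` is a family of smooth projective varieties over `ℚ`, over the complement of a
hypersurface `P = 0`, and `𝔅_p` is the average over the fibres `𝒳_c`, `c ∈ 𝔸^n(𝔽_p)`, of the trace of
the Frobenius on `H²`, as in the problem.  The identity of the problem says that the residue of
`∑ 𝔅_p log p p^{-s}` at `s = 2` is the rank of the Néron-Severi group of the generic fibre.  The theorem
says that this identity, for one family, is a statement about Tate's conjecture for almost all fibres over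
integral points: in mean square over the integral points `c` of height at most `H`, and with an error that
does not depend on `H`, `log |L₂(2 + ε, 𝒳_c)|` is equal to `∑ 𝔅_p p^{-(2 + ε)}` for `ε ≥ 1 / log H`.
The definitions are in `Pool.Agent.H28.RF.Defs`.
-/

set_option autoImplicit false

namespace Pool.Agent.Results.MP_1f4fc7_nt.ResidueAlmostAllFibres

open Pool.Agent.H28.RF

/-- **The residue identity and almost all fibres.**  Let `X` be a family of smooth projective varieties of
dimension `d` over the complement of `P = 0` in the affine space over `ℤ` with coordinates indexed by `ι`,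
`0 ≤ i ≤ 2 d`, `b` the `i`-th Betti number (`i = 2` in the question), and `𝔅_p` the averages of the traces
of Frobenius on `H^i` of the fibres over `𝔽_p`.
* (No continuation is assumed.)  The mean square of
  `log |L(H^i(X_c), i/2 + 1 + ε_c)| - Re ∑_p 𝔅_p p^{-(i/2 + 1 + ε_c)}` over the integral points `c` of height
  at most `H` is bounded independently of `H`, for all choices of `1 / log H ≤ ε_c ≤ 1`.
* For every real `r` the following are equivalent: `Re ∑_p 𝔅_p p^{-(i/2 + 1 + ε)} = r log(1/ε) + O(1)` for
  `0 < ε ≤ 1`; for every `δ > 0` there is `C` such that for all `H` and all integral points `c` of height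
  at most `H`, `P(c) ≠ 0`, except for a proportion `δ`, the number `ε^r |L(H^i(X_c), i/2 + 1 + ε)|` is
  between `e^{-C}` and `e^C` for all `1 / log H ≤ ε ≤ 1`.
* If `∑_p 𝔅_p log p p^{-s}` has a continuation to a neighbourhood of `i/2 + 1` with at most a simple
  pole there, of residue `r'`, then `r' = r` if and only if almost all fibres behave as if their
  `L`-functions had a pole of order `r`, in the sense of the second point. -/
theorem result (ι : Type) [Fintype ι] [DecidableEq ι] (l : ℕ)
    (X : Set (MvPolynomial (Fin l) (MvPolynomial ι ℤ))) (P : MvPolynomial ι ℤ) (d i b : ℕ)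
    (t : ∀ p : ℕ, (ι → ZMod p) → ℂ) (hi : i ≤ 2 * d) (h : IsFamily X P d i b t) :
    MeanSquare X P d i b t ∧ (∀ r : ℝ, MeanOrder t i r ↔ AlmostAll X P d i b r) ∧
      ∀ r' : ℝ, HasResidue t i r' → ∀ r : ℝ, r' = r ↔ AlmostAll X P d i b r := by
  have h1 : ∀ r : ℝ, MeanOrder t i r ↔ AlmostAll X P d i b r := fun r =>
    ⟨almostAll_of_meanOrder (mean_square hi h), meanOrder_of_almostAll hi h⟩
  refine ⟨mean_square hi h, h1, fun r' hr' r => ⟨fun e => ?_, fun hr => ?_⟩⟩
  · rw [← e]
    exact (h1 r').mp (meanOrder_of_residue h hr')
  · exact meanOrder_unique (meanOrder_of_residue h hr') ((h1 r).mpr hr)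

end Pool.Agent.Results.MP_1f4fc7_nt.ResidueAlmostAllFibres
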